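import Pool.Agent.Helper13.PS.St

/-!
# Project PS (MP_77ff3d_nt), module PB: splitting of words after `m` heads
-/

set_option autoImplicit false

noncomputable section

namespace Pool.Agent.Helper42.PS3

open Finset Pool.Agent.Helper76.ND Pool.Agent.Helper13.PS

theorem split_word (l : List Bool) : ∀ m n : ℕ, hd l = m + n → te l = true →
    ∃ a b : List Bool, l = a ++ b ∧ hd a = m ∧ te a = true ∧ hd b = n ∧ te b = true := by
  induction l with
  | nil =>
    intro m n h _
    rw [hd_nil] at h
    exact ⟨[], [], rfl, by rw [hd_nil]; omega, te_nil, by rw [hd_nil]; omega, te_nil⟩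
  | cons x l ih =>
    intro m n h ht
    have htl : te l = true := by
      by_cases hl : l = []
      · rw [hl]; exact te_nil
      · rw [te_cons x l hl] at ht; exact ht
    cases m with
    | zero => exact ⟨[], x :: l, rfl, hd_nil, te_nil, by omega, ht⟩
    | succ m =>
      cases x with
      | true =>
        rw [hd_true] at h
        obtain ⟨a, b, h1, h2, h3, h4, h5⟩ := ih m n (by omega) htl
        exact ⟨true :: a, b, by rw [h1]; rfl, by rw [hd_true, h2], by rw [te_true_cons, h3], h4, h5⟩
      | false =>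
        rw [hd_false] at h
        obtain ⟨a, b, h1, h2, h3, h4, h5⟩ := ih (m + 1) n (by omega) htl
        have hne : a ≠ [] := by
          rintro rfl
          rw [hd_nil] at h2
          omega
        exact ⟨false :: a, b, by rw [h1]; rfl, by rw [hd_false, h2], by rw [te_cons _ _ hne, h3],
          h4, h5⟩

theorem ns_AP (n s M : ℕ) : ns n n s M = ((AP n s M).card : ℝ) / 2 ^ s := rfl

theorem card_split (m n s M : ℕ) : (AP (m + n) s M).card ≤
    ∑ s1 ∈ range (s + 1), ∑ a ∈ AP m s1 M, (AP n (s - s1) ((2 ^ s1 * M + cc a) / 3 ^ m)).card := by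
  have hsub : AP (m + n) s M ⊆ (range (s + 1)).biUnion fun s1 => (AP m s1 M).biUnion fun a =>
      (AP n (s - s1) ((2 ^ s1 * M + cc a) / 3 ^ m)).image fun b => a ++ b := by
    intro l hl
    unfold AP at hl
    rw [mem_filter, mem_W] at hl
    obtain ⟨h0, h1, h2, h3⟩ := hl
    obtain ⟨a, b, rfl, ha1, ha2, hb1, hb2⟩ := split_word l m n h1 h2
    rw [List.length_append] at h0
    have hs : s = b.length + a.length := by omega
    have h4 : 2 ^ s * M + cc (a ++ b) = 2 ^ b.length * (2 ^ a.length * M + cc a) + 3 ^ m * cc b := by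
      rw [cc_append, ha1, hs, pow_add]; ring
    rw [h4] at h3
    have h5 : 3 ^ m ∣ 2 ^ a.length * M + cc a := by
      have h6 : 3 ^ m ∣ 2 ^ b.length * (2 ^ a.length * M + cc a) + 3 ^ m * cc b :=
        (pow_dvd_pow 3 (Nat.le_add_right m n)).trans h3
      have h7 : 3 ^ m ∣ 2 ^ b.length * (2 ^ a.length * M + cc a) :=
        (Nat.dvd_add_left (dvd_mul_right _ _)).1 h6
      have h8 : Nat.Coprime (3 ^ m) (2 ^ b.length) :=
        Nat.Coprime.pow _ _ (by norm_num)
      exact h8.dvd_of_dvd_mul_left h7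
    obtain ⟨N, hN⟩ := h5
    have hN' : (2 ^ a.length * M + cc a) / 3 ^ m = N := by
      rw [hN]; exact Nat.mul_div_cancel_left _ (by positivity)
    have h9 : 3 ^ n ∣ 2 ^ b.length * N + cc b := by
      rw [hN, pow_add] at h3
      have h10 : 3 ^ m * 3 ^ n ∣ 3 ^ m * (2 ^ b.length * N + cc b) := by
        convert h3 using 1; ring
      exact Nat.dvd_of_mul_dvd_mul_left (by positivity) h10
    rw [mem_biUnion]
    refine ⟨a.length, mem_range.2 (by omega), ?_⟩
    rw [mem_biUnion]
    refine ⟨a, ?_, ?_⟩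
    · unfold AP
      rw [mem_filter, mem_W]
      exact ⟨rfl, ha1, ha2, ⟨N, hN⟩⟩
    · rw [mem_image]
      refine ⟨b, ?_, rfl⟩
      unfold AP
      rw [mem_filter, mem_W, hN']
      have h11 : s - a.length = b.length := by omega
      rw [h11]
      exact ⟨rfl, hb1, hb2, h9⟩
  refine (card_le_card hsub).trans ?_
  refine card_biUnion_le.trans (sum_le_sum fun s1 _ => ?_)
  exact card_biUnion_le.trans (sum_le_sum fun a _ => card_image_le)

theorem hPB : StPB := by
  intro K m n M
  let G : ℕ → ℕ → ℝ := fun s1 s2 =>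
    ∑ a ∈ AP m s1 M, ns n n s2 ((2 ^ s1 * M + cc a) / 3 ^ m) / 2 ^ s1
  have hG : ∀ s1 s2, 0 ≤ G s1 s2 := fun s1 s2 =>
    sum_nonneg fun a _ => div_nonneg (ns_nonneg _ _ _ _) (by positivity)
  have h1 : ∀ s ∈ range K, ns (m + n) (m + n) s M ≤
      ∑ s1 ∈ range K, if s1 ≤ s then G s1 (s - s1) else 0 := by
    intro s hs
    rw [mem_range] at hs
    have h2 : ∑ s1 ∈ range K, (if s1 ≤ s then G s1 (s - s1) else 0) =
        ∑ s1 ∈ range (s + 1), G s1 (s - s1) := by
      rw [← sum_filter]
      apply sum_congr _ fun _ _ => rfl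
      ext x
      rw [mem_filter, mem_range, mem_range]
      omega
    rw [h2, ns_AP, div_le_iff₀ (by positivity)]
    have h3 : ((AP (m + n) s M).card : ℝ) ≤ ∑ s1 ∈ range (s + 1), ∑ a ∈ AP m s1 M,
        ((AP n (s - s1) ((2 ^ s1 * M + cc a) / 3 ^ m)).card : ℝ) := by
      exact_mod_cast card_split m n s M
    refine h3.trans (le_of_eq ?_)
    rw [sum_mul]
    refine sum_congr rfl fun s1 hs1 => ?_
    rw [mem_range] at hs1
    have h4 : (2 : ℝ) ^ s = 2 ^ s1 * 2 ^ (s - s1) := by rw [← pow_add]; congr 1; omega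
    rw [sum_mul]
    refine sum_congr rfl fun a _ => ?_
    rw [ns_AP, h4]
    field_simp
  calc P K (m + n) M = ∑ s ∈ range K, ns (m + n) (m + n) s M := rfl
    _ ≤ ∑ s ∈ range K, ∑ s1 ∈ range K, (if s1 ≤ s then G s1 (s - s1) else 0) := sum_le_sum h1
    _ = ∑ s1 ∈ range K, ∑ s ∈ range K, (if s1 ≤ s then G s1 (s - s1) else 0) := sum_comm
    _ ≤ ∑ s1 ∈ range K, ∑ s2 ∈ range K, G s1 s2 := by
        refine sum_le_sum fun s1 _ => ?_
        rw [← sum_filter]
        calc ∑ s ∈ (range K).filter (fun s => s1 ≤ s), G s1 (s - s1)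
            = ∑ j ∈ ((range K).filter (fun s => s1 ≤ s)).image (fun s => s - s1), G s1 j := by
              rw [sum_image]
              intro x hx y hy hxy
              rw [mem_coe, mem_filter] at hx hy
              have h3 : x - s1 = y - s1 := hxy
              omega
          _ ≤ ∑ j ∈ range K, G s1 j := by
              refine sum_le_sum_of_subset_of_nonneg ?_ fun j _ _ => hG _ _
              intro j hj
              rw [mem_image] at hj
              obtain ⟨s, hs, rfl⟩ := hj
              rw [mem_filter, mem_range] at hs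
              rw [mem_range]
              omega
    _ = ∑ s ∈ range K, ∑ a ∈ AP m s M, P K n ((2 ^ s * M + cc a) / 3 ^ m) / 2 ^ s := by
        refine sum_congr rfl fun s1 _ => ?_
        rw [sum_comm]
        refine sum_congr rfl fun a _ => ?_
        unfold P
        rw [sum_div]

end Pool.Agent.Helper42.PS3
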