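import Pool.Agent.Helper13.PS.St

/-!
# Project PS (MP_77ff3d_nt), module PD: the `L^q` norms are submultiplicative
-/

set_option autoImplicit false

noncomputable section

namespace Pool.Agent.Helper42.PS3

open Finset Pool.Agent.Helper76.ND Pool.Agent.Helper13.PS

theorem AP_shift (m s u i : ℕ) : AP m s (u + 3 ^ m * i) = AP m s u := by
  unfold AP
  refine filter_congr fun a _ => ?_
  have h : 2 ^ s * (u + 3 ^ m * i) + cc a = 2 ^ s * u + cc a + 3 ^ m * (2 ^ s * i) := by ring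
  rw [h, Nat.dvd_add_left (dvd_mul_right _ _)]

theorem div_shift (m s u i c : ℕ) :
    (2 ^ s * (u + 3 ^ m * i) + c) / 3 ^ m = (2 ^ s * u + c) / 3 ^ m + 2 ^ s * i := by
  have h : 2 ^ s * (u + 3 ^ m * i) + c = 2 ^ s * u + c + 3 ^ m * (2 ^ s * i) := by ring
  rw [h, Nat.add_mul_div_left _ _ (by positivity)]

/-- the index set -/
def TT (K m u : ℕ) : Finset ((_ : ℕ) × List Bool) := (range K).sigma fun s => AP m s u

theorem sum_TT (K m u : ℕ) (F : ℕ → List Bool → ℝ) :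
    ∑ x ∈ TT K m u, F x.1 x.2 = ∑ s ∈ range K, ∑ a ∈ AP m s u, F s a := by
  unfold TT
  rw [sum_sigma]

theorem sum_w (K m u : ℕ) : ∑ x ∈ TT K m u, (1 : ℝ) / 2 ^ x.1 = P K m u := by
  rw [sum_TT K m u (fun s _ => (1 : ℝ) / 2 ^ s)]
  unfold P
  refine sum_congr rfl fun s _ => ?_
  rw [sum_const, nsmul_eq_mul]
  change ((AP m s u).card : ℝ) * (1 / 2 ^ s) = ((AP m s u).card : ℝ) / 2 ^ s
  ring

theorem rpow_mul_self (W q : ℝ) (hW : 0 ≤ W) (hq : 1 ≤ q) : W ^ (q - 1) * W = W ^ q := by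
  rcases hW.eq_or_lt with h | h
  · rw [← h, mul_zero, Real.zero_rpow (by linarith)]
  · rw [Real.rpow_sub_one h.ne']
    field_simp

theorem hPD (hPA : StPA) (hPB : StPB) (hPC : StPC) (hJe : StJe) : StPD := by
  intro K m n q hq
  obtain ⟨hP0, hPper, _, _⟩ := hPA
  have hq0 : 0 ≤ q := by linarith
  unfold Sq
  rw [hPC.1 m n (fun M => P K (m + n) M ^ q), sum_mul]
  refine sum_le_sum fun u _ => ?_
  -- the pointwise bound
  have hpt : ∀ i : ℕ, P K (m + n) (u + 3 ^ m * i) ^ q ≤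
      P K m u ^ (q - 1) * ∑ x ∈ TT K m u, (1 : ℝ) / 2 ^ x.1 *
        P K n ((2 ^ x.1 * u + cc x.2) / 3 ^ m + 2 ^ x.1 * i) ^ q := by
    intro i
    have h1 : P K (m + n) (u + 3 ^ m * i) ≤ ∑ x ∈ TT K m u, (1 : ℝ) / 2 ^ x.1 *
        P K n ((2 ^ x.1 * u + cc x.2) / 3 ^ m + 2 ^ x.1 * i) := by
      rw [sum_TT K m u (fun s a => (1 : ℝ) / 2 ^ s *
        P K n ((2 ^ s * u + cc a) / 3 ^ m + 2 ^ s * i))]
      refine (hPB K m n (u + 3 ^ m * i)).trans (le_of_eq ?_)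
      refine sum_congr rfl fun s _ => ?_
      rw [AP_shift]
      refine sum_congr rfl fun a _ => ?_
      rw [div_shift]
      ring
    refine (Real.rpow_le_rpow (hP0 _ _ _) h1 hq0).trans ?_
    have h2 := hJe _ (TT K m u) (fun x => (1 : ℝ) / 2 ^ x.1)
      (fun x => P K n ((2 ^ x.1 * u + cc x.2) / 3 ^ m + 2 ^ x.1 * i)) q hq
      (fun x _ => by positivity) (fun x _ => hP0 _ _ _)
    rw [sum_w] at h2
    exact h2
  refine (sum_le_sum fun i _ => hpt i).trans (le_of_eq ?_)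
  rw [← mul_sum, sum_comm]
  have h3 : ∀ x ∈ TT K m u, ∑ i ∈ range (3 ^ n), (1 : ℝ) / 2 ^ x.1 *
      P K n ((2 ^ x.1 * u + cc x.2) / 3 ^ m + 2 ^ x.1 * i) ^ q =
      (1 : ℝ) / 2 ^ x.1 * ∑ M ∈ range (3 ^ n), P K n M ^ q := by
    intro x _
    rw [← mul_sum]
    congr 1
    exact hPC.2 n ((2 ^ x.1 * u + cc x.2) / 3 ^ m) x.1 (fun M => P K n M ^ q)
      (fun M => by rw [hPper])
  rw [sum_congr rfl h3, ← sum_mul, sum_w, ← mul_assoc, rpow_mul_self _ _ (hP0 _ _ _) hq]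

end Pool.Agent.Helper42.PS3
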