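import Pool.Agent.Helper13.PS.St

/-!
# Project PS (MP_77ff3d_nt), module PG: small sets have small measure
-/

set_option autoImplicit false

noncomputable section

namespace Pool.Agent.Helper42.PS3

open Finset Pool.Agent.Helper76.ND Pool.Agent.Helper13.PS

theorem P_mod (hper : ∀ K n M, P K n (M + 3 ^ n) = P K n M) (K n x : ℕ) :
    P K n (x % 3 ^ n) = P K n x := by
  have h : ∀ k y : ℕ, P K n (y + 3 ^ n * k) = P K n y := by
    intro k
    induction k with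
    | zero => intro y; simp
    | succ k ih => intro y; rw [Nat.mul_succ, ← add_assoc, hper, ih]
  conv_rhs => rw [← Nat.mod_add_div x (3 ^ n)]
  exact (h _ _).symm

theorem sum_U_le (hPA : StPA) (K j : ℕ) (q : ℝ) (U : Finset ℕ) (hU : U ⊆ Icc 1 (3 ^ j)) :
    ∑ M ∈ U, P K j M ^ q ≤ Sq K j q := by
  obtain ⟨hP0, hPper, _, _⟩ := hPA
  have hpos : 0 < 3 ^ j := by positivity
  have hinj : Set.InjOn (fun M => M % 3 ^ j) (U : Set ℕ) := by
    intro x hx y hy h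
    have hx' := mem_Icc.1 (hU hx)
    have hy' := mem_Icc.1 (hU hy)
    have h0 : x % 3 ^ j = y % 3 ^ j := h
    have key : ∀ z : ℕ, 1 ≤ z → z ≤ 3 ^ j → z = if z % 3 ^ j = 0 then 3 ^ j else z % 3 ^ j := by
      intro z h1 h2
      rcases h2.eq_or_lt with h3 | h3
      · rw [h3, Nat.mod_self, if_pos rfl]
      · rw [Nat.mod_eq_of_lt h3, if_neg (by omega)]
    rw [key x hx'.1 hx'.2, key y hy'.1 hy'.2, h0]
  calc ∑ M ∈ U, P K j M ^ q = ∑ M ∈ U, P K j (M % 3 ^ j) ^ q :=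
        sum_congr rfl fun M _ => by rw [P_mod hPper]
    _ = ∑ M ∈ U.image (fun M => M % 3 ^ j), P K j M ^ q := by rw [sum_image hinj]
    _ ≤ ∑ M ∈ range (3 ^ j), P K j M ^ q := by
        refine sum_le_sum_of_subset_of_nonneg ?_ fun M _ _ => Real.rpow_nonneg (hP0 _ _ _) _
        intro M hM
        rw [mem_image] at hM
        obtain ⟨x, _, rfl⟩ := hM
        exact mem_range.2 (Nat.mod_lt _ hpos)

theorem hPG (hPA : StPA) (hPF : StPF) : StPG := by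
  intro δ hδ0 hδ1
  obtain ⟨n, hn, hF⟩ := hPF δ hδ0 hδ1
  refine ⟨n, hn, fun K j U hU => ?_⟩
  have hn0 : (0 : ℝ) < n := by exact_mod_cast hn
  have hP0 := hPA.1
  have hD : (0 : ℝ) < (3 : ℝ) ^ ((1 - δ) * j) := Real.rpow_pos_of_pos (by norm_num) _
  have hconj : (1 + 1 / (n : ℝ)).HolderConjugate ((n : ℝ) + 1) := by
    rw [Real.holderConjugate_iff]
    constructor
    · have : 0 < 1 / (n : ℝ) := by positivity
      linarith
    · field_simp
  have h1 := Real.inner_le_Lp_mul_Lq_of_nonneg U (f := fun M => P K j M) (g := fun _ => (1 : ℝ))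
    hconj (fun M _ => hP0 _ _ _) (fun _ _ => zero_le_one)
  simp only [mul_one, Real.one_rpow] at h1
  have h2 : ∑ M ∈ U, P K j M ^ (1 + 1 / (n : ℝ)) ≤
      3 * (3 : ℝ) ^ (-((1 - δ) * j / n)) := (sum_U_le hPA K j _ U hU).trans (hF K j)
  have h3 : 0 ≤ ∑ M ∈ U, P K j M ^ (1 + 1 / (n : ℝ)) :=
    sum_nonneg fun M _ => Real.rpow_nonneg (hP0 _ _ _) _
  have h4 : (∑ M ∈ U, P K j M ^ (1 + 1 / (n : ℝ))) ^ (1 / (1 + 1 / (n : ℝ))) ≤
      3 * (((3 : ℝ) ^ ((1 - δ) * j)) ^ (1 / ((n : ℝ) + 1)))⁻¹ := by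
    refine (Real.rpow_le_rpow h3 h2 (by positivity)).trans ?_
    rw [Real.mul_rpow (by norm_num) (Real.rpow_nonneg (by norm_num) _)]
    have h5 : (3 : ℝ) ^ (1 / (1 + 1 / (n : ℝ))) ≤ 3 := by
      calc (3 : ℝ) ^ (1 / (1 + 1 / (n : ℝ))) ≤ (3 : ℝ) ^ (1 : ℝ) := by
            refine Real.rpow_le_rpow_of_exponent_le (by norm_num) ?_
            rw [div_le_one (by positivity)]
            have : 0 < 1 / (n : ℝ) := by positivity
            linarith
        _ = 3 := Real.rpow_one 3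
    have h6 : ((3 : ℝ) ^ (-((1 - δ) * j / n))) ^ (1 / (1 + 1 / (n : ℝ))) =
        (((3 : ℝ) ^ ((1 - δ) * j)) ^ (1 / ((n : ℝ) + 1)))⁻¹ := by
      rw [← Real.rpow_mul (by norm_num), ← Real.rpow_mul (by norm_num), ← Real.rpow_neg (by norm_num)]
      congr 1
      field_simp
    rw [h6]
    exact mul_le_mul_of_nonneg_right h5 (by positivity)
  have h7 : ∑ M ∈ U, (1 : ℝ) = U.card := by simp
  rw [h7] at h1
  calc ∑ M ∈ U, P K j M ≤ (∑ M ∈ U, P K j M ^ (1 + 1 / (n : ℝ))) ^ (1 / (1 + 1 / (n : ℝ))) *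
        (U.card : ℝ) ^ (1 / ((n : ℝ) + 1)) := h1
    _ ≤ 3 * (((3 : ℝ) ^ ((1 - δ) * j)) ^ (1 / ((n : ℝ) + 1)))⁻¹ *
        (U.card : ℝ) ^ (1 / ((n : ℝ) + 1)) :=
        mul_le_mul_of_nonneg_right h4 (by positivity)
    _ = 3 * ((U.card : ℝ) / (3 : ℝ) ^ ((1 - δ) * j)) ^ (1 / ((n : ℝ) + 1)) := by
        rw [Real.div_rpow (by positivity) hD.le]
        ring

end Pool.Agent.Helper42.PS3
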